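import Pool.Agent.H217R3.Beer.Meas

/-!
Beer index of convexity: a planar set of large Beer index contains the boundary of a convex set
of proportionally large area.  Version for Lebesgue measurable sets, with an explicit constant.
-/

set_option autoImplicit false

namespace Pool.Agent.Results.MP_e9a110_co.BeerConvexCurve

open Set MeasureTheory Pool.Agent.H217R3.Beer

/-- For every `ε` with `0 < ε ≤ 1` the constant `δ = ε ^ 6 / 49152` works: let `S` be a Lebesgue
measurable subset of the plane (null measurable = Lebesgue measurable) of finite positive area such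
that the set `Seg(S)` of pairs `(x, y)` with `[x, y] ⊆ S` is Lebesgue measurable in `ℝ⁴` and has
measure at least `ε · λ(S)²`, i.e. the Beer index of `S` is defined and at least `ε`.  Then there is
a bounded convex set `C` with `λ(C) ≥ δ · λ(S)` whose topological boundary is contained in `S`. -/
theorem result (ε : ℝ) (hε : 0 < ε) (hε1 : ε ≤ 1) (S : Set (ℝ × ℝ))
    (hS : NullMeasurableSet S volume) (hpos : 0 < volume S) (hfin : volume S < ⊤)
    (hSeg : NullMeasurableSet {p : (ℝ × ℝ) × (ℝ × ℝ) | segment ℝ p.1 p.2 ⊆ S} volume)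
    (hb : ENNReal.ofReal ε * (volume S) ^ 2 ≤
      volume {p : (ℝ × ℝ) × (ℝ × ℝ) | segment ℝ p.1 p.2 ⊆ S}) :
    ∃ C : Set (ℝ × ℝ), Convex ℝ C ∧ Bornology.IsBounded C ∧
      ENNReal.ofReal (ε ^ 6 / 49152) * volume S ≤ volume C ∧ frontier C ⊆ S := by
  obtain ⟨M, hM⟩ : ∃ M : ℝ, M = (MeasureTheory.volume S).toReal := ⟨_, rfl⟩
  have hMpos : 0 < M := by rw [hM]; exact ENNReal.toReal_pos hpos.ne' hfin.ne
  have hvol : MeasureTheory.volume S = ENNReal.ofReal M := by
    rw [hM, ENNReal.ofReal_toReal hfin.ne]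
  have hfact : Fact (MeasureTheory.volume S < ⊤) := ⟨hfin⟩
  obtain ⟨μ, hμ⟩ : ∃ μ : MeasureTheory.Measure P2, μ = MeasureTheory.volume.restrict S := ⟨_, rfl⟩
  have hμfin : MeasureTheory.IsFiniteMeasure μ := by rw [hμ]; infer_instance
  have hμle : μ ≤ MeasureTheory.volume := by rw [hμ]; exact MeasureTheory.Measure.restrict_le_self
  have hμu : μ Set.univ = ENNReal.ofReal M := by
    rw [hμ, MeasureTheory.Measure.restrict_apply_univ, hvol]
  have hprod : μ.prod μ = (volume : Measure (P2 × P2)).restrict (S ×ˢ S) := by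
    rw [hμ, MeasureTheory.Measure.prod_restrict]
    rfl
  have hnull : NullMeasurableSet {p : P2 × P2 | segment ℝ p.1 p.2 ⊆ S} (μ.prod μ) := by
    rw [hprod]
    exact hSeg.mono MeasureTheory.Measure.restrict_le_self
  obtain ⟨G, hGsub, hGm, hGae⟩ := hnull.exists_measurable_subset_ae_eq
  have hSS : NullMeasurableSet (S ×ˢ S) (volume : Measure (P2 × P2)) := by
    exact hS.prod hS
  have hGvol : (μ.prod μ) G = MeasureTheory.volume {p : P2 × P2 | segment ℝ p.1 p.2 ⊆ S} := by
    rw [MeasureTheory.measure_congr hGae, hprod, MeasureTheory.Measure.restrict_apply₀' hSS]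
    congr 1
    apply Set.inter_eq_left.2
    intro p hp
    exact ⟨hp (left_mem_segment ℝ _ _), hp (right_mem_segment ℝ _ _)⟩
  have hJ := jensen μ G hGm (ENNReal.ofReal (ε * M)) ENNReal.ofReal_ne_top (by
    rw [hGvol, hμu]
    refine le_trans ?_ hb
    rw [hvol, ← ENNReal.ofReal_pow hMpos.le, ← ENNReal.ofReal_mul (by positivity),
      ← ENNReal.ofReal_mul hε.le]
    apply ENNReal.ofReal_le_ofReal
    nlinarith)
  rw [hμu, ← ENNReal.ofReal_pow (by positivity), ← ENNReal.ofReal_mul (by positivity)] at hJ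
  have hgood := select μ hμle S G hGm (fun p hp => hGsub hp) (ε ^ 6 / 6144 * M) (by positivity)
    (ENNReal.ofReal (ε ^ 3 / 2 * M)) (by
      refine lt_of_lt_of_le ?_ hJ
      rw [hμu]
      have e3 : (3 : ENNReal) = ENNReal.ofReal 3 := by norm_num
      rw [e3, ← ENNReal.ofReal_mul (by positivity), ← ENNReal.ofReal_mul (by positivity),
        ← ENNReal.ofReal_mul (by positivity), ← ENNReal.ofReal_add (by positivity) (by positivity),
        ← ENNReal.ofReal_pow (by positivity), ← ENNReal.ofReal_mul (by positivity)]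
      rw [ENNReal.ofReal_lt_ofReal_iff (by positivity)]
      have h1 : ε ^ 6 ≤ ε ^ 3 := pow_le_pow_of_le_one hε.le hε1 (by norm_num)
      have h2 : 0 < ε ^ 3 * M ^ 4 := by positivity
      have h3 : ε ^ 6 * M ^ 4 ≤ ε ^ 3 * M ^ 4 := mul_le_mul_of_nonneg_right h1 (by positivity)
      nlinarith)
    (by
      rw [hμu]
      have e3 : (3 : ENNReal) = ENNReal.ofReal 3 := by norm_num
      have e2 : (2 : ENNReal) = ENNReal.ofReal 2 := by norm_num
      rw [e3, e2, ← ENNReal.ofReal_div_of_pos (by norm_num), ← ENNReal.ofReal_div_of_pos (by norm_num),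
        ← ENNReal.ofReal_div_of_pos (by norm_num), ← ENNReal.ofReal_mul (by positivity),
        ← ENNReal.ofReal_mul (by positivity), ← ENNReal.ofReal_mul (by positivity)]
      apply ENNReal.ofReal_le_ofReal
      apply le_of_eq
      ring)
  obtain ⟨C, h1, h2, h3, h4⟩ := hgood
  refine ⟨C, h1, h2, ?_, h4⟩
  refine le_trans ?_ h3
  rw [hvol, ← ENNReal.ofReal_mul (by positivity)]
  apply ENNReal.ofReal_le_ofReal
  apply le_of_eq
  ring

end Pool.Agent.Results.MP_e9a110_co.BeerConvexCurve
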